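import Pool.Agent.H18.TE.Targets

/-!
# Row IDG: independent powers give a lower bound for the degree
-/

open MvPolynomial
open Pool.Agent.H18.HIT
open Pool.Agent.H18.TE

namespace Pool.Agent.H34.BKH

theorem pf_IDG : T_IDG := by
  classical
  intro N n k L _ _ _ π hπ T τ hτ hfin θ hθ
  have hli : LinearIndependent τ.fieldRange (fun i : Fin n => π θ ^ (i : ℕ)) := by
    rw [Fintype.linearIndependent_iff]
    intro g hg i
    have h1 : ∀ i, ∃ z : L, τ z = (g i : L) := fun i => by
      obtain ⟨z, hz⟩ := (g i).2
      exact ⟨z, hz⟩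
    choose z hz using h1
    choose p q hq hpq using fun i => hπ (z i)
    let Q : Po N k := ∏ j, q j
    let G : Fin n → Po N k := fun i => p i * ∏ j ∈ Finset.univ.erase i, q j
    have hQ : π Q ≠ 0 := by
      rw [map_prod]
      exact Finset.prod_ne_zero_iff.mpr fun j _ => hq j
    have hG : ∀ i, z i * π Q = π (G i) := by
      intro i
      have h2 : Q = q i * ∏ j ∈ Finset.univ.erase i, q j :=
        (Finset.mul_prod_erase Finset.univ q (Finset.mem_univ i)).symm
      rw [h2, map_mul, map_mul, hpq i, div_mul_eq_mul_div, div_eq_iff (hq i)]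
      ring
    have h3 : π (∑ i : Fin n, θ ^ (i : ℕ) * aeval T (G i)) = 0 := by
      rw [map_sum]
      have h4 : ∀ i : Fin n, π (θ ^ (i : ℕ) * aeval T (G i)) =
          τ (π Q) * (g i • π θ ^ (i : ℕ)) := by
        intro i
        rw [map_mul, map_pow, ← hτ, ← hG, map_mul, hz, IntermediateField.smul_def, smul_eq_mul]
        ring
      rw [Finset.sum_congr rfl fun i _ => h4 i, ← Finset.mul_sum, hg, mul_zero]
    have h5 := hθ G h3 i
    rw [← hG] at h5
    have h6 : z i = 0 := (mul_eq_zero.mp h5).resolve_right hQ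
    apply Subtype.ext
    rw [← hz i, h6, map_zero]
    rfl
  have h := hli.fintype_card_le_finrank
  rwa [Fintype.card_fin] at h

end Pool.Agent.H34.BKH
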