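import Pool.Agent.H18.TE.Targets
import Mathlib.RingTheory.Unramified.Field
import Mathlib.FieldTheory.IntermediateField.Adjoin.Algebra

/-!
# Row JAL: isolated solutions of systems of polynomial equations are algebraic
-/

open MvPolynomial
open Pool.Agent.H18.HIT
open Pool.Agent.H18.TE

namespace Pool.Agent.H34.BKH

/-- the chain rule -/
theorem der_aeval {K M Ω : Type} [Field K] [Field M] [Algebra K M] [AddCommGroup Ω] [Module M Ω]
    [Module K Ω] (D : Derivation K M Ω) {N : ℕ} (z : Fin N → M) (p : Po N K) :
    D (aeval z p) = ∑ j, aeval z (pderiv j p) • D (z j) := by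
  classical
  induction p using MvPolynomial.induction_on with
  | C a =>
    rw [show (C a : Po N K) = algebraMap K _ a from rfl, AlgHom.commutes,
      Derivation.map_algebraMap]
    refine (Finset.sum_eq_zero fun j _ => ?_).symm
    rw [Derivation.map_algebraMap, map_zero, zero_smul]
  | add p q hp hq =>
    rw [map_add, map_add, hp, hq, ← Finset.sum_add_distrib]
    refine Finset.sum_congr rfl fun j _ => ?_
    rw [map_add, map_add, add_smul]
  | mul_X p i hp =>
    rw [map_mul, aeval_X, Derivation.leibniz, hp, Finset.smul_sum]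
    have h1 : ∀ j, aeval z (pderiv j (p * X i)) • D (z j) =
        (if j = i then aeval z p • D (z i) else 0) + z i • aeval z (pderiv j p) • D (z j) := by
      intro j
      rw [Derivation.leibniz, pderiv_X, smul_eq_mul, smul_eq_mul, map_add, map_mul, map_mul,
        aeval_X, add_smul, smul_smul]
      by_cases h : j = i
      · subst h
        rw [Pi.single_eq_same, map_one, mul_one, if_pos rfl]
      · rw [Pi.single_eq_of_ne (Ne.symm h), map_zero, mul_zero, zero_smul, if_neg h]
    rw [Finset.sum_congr rfl fun j _ => h1 j, Finset.sum_add_distrib,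
      Finset.sum_ite_eq' Finset.univ i, if_pos (Finset.mem_univ i)]

theorem pf_JAL : T_JAL := by
  classical
  intro K L _ _ _ _ N f z hf hj i
  set M := IntermediateField.adjoin K (Set.range z) with hM
  let z' : Fin N → M := fun i => ⟨z i, IntermediateField.subset_adjoin _ _ ⟨i, rfl⟩⟩
  have hz' : ∀ p : Po N K, ((aeval z' p : M) : L) = aeval z p := by
    intro p
    have h1 : (M.val.comp (aeval z')) = (aeval z : Po N K →ₐ[K] L) := by
      rw [MvPolynomial.comp_aeval]
      rfl
    exact DFunLike.congr_fun h1 p
  have hf' : ∀ i, aeval z' (f i) = 0 := fun i => Subtype.ext ((hz' _).trans (hf i))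
  have hj' : aeval z' (jac f) ≠ 0 := fun h => hj (by rw [← hz', h]; rfl)
  let D : Derivation K M (Ω[M⁄K]) := KaehlerDifferential.D K M
  -- the linear system
  let A : Matrix (Fin N) (Fin N) M := Matrix.of fun i j => aeval z' (pderiv j (f i))
  have hA : A.det ≠ 0 := by
    have h1 : A.det = aeval z' (jac f) := by
      unfold jac
      rw [AlgHom.map_det]
      rfl
    rwa [h1]
  have hsys : ∀ i, ∑ j, A i j • D (z' j) = 0 := by
    intro i
    have h1 := der_aeval D z' (f i)
    rw [hf', map_zero] at h1
    exact h1.symm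
  have hD : ∀ j, D (z' j) = 0 := by
    intro j
    have h1 : ∑ i, A.adjugate j i • ∑ l, A i l • D (z' l) = 0 :=
      Finset.sum_eq_zero fun i _ => by rw [hsys, smul_zero]
    have h2 : ∑ i, A.adjugate j i • ∑ l, A i l • D (z' l) = A.det • D (z' j) := by
      simp only [Finset.smul_sum, smul_smul]
      rw [Finset.sum_comm]
      have h3 : ∀ l, ∑ i, (A.adjugate j i * A i l) • D (z' l) =
          (if l = j then A.det • D (z' j) else 0) := by
        intro l
        rw [← Finset.sum_smul]
        have h4 : ∑ i, A.adjugate j i * A i l = (A.adjugate * A) j l := rfl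
        rw [h4, Matrix.adjugate_mul, Matrix.smul_apply, Matrix.one_apply]
        by_cases h : l = j
        · subst h
          rw [if_pos rfl, if_pos rfl, smul_eq_mul, mul_one]
        · rw [if_neg (Ne.symm h), if_neg h, smul_zero, zero_smul]
      rw [Finset.sum_congr rfl fun l _ => h3 l, Finset.sum_ite_eq' Finset.univ j,
        if_pos (Finset.mem_univ j)]
    rw [h1] at h2
    rcases smul_eq_zero.mp h2.symm with h | h
    · exact absurd h hA
    · exact h
  have hall : ∀ x (hx : x ∈ M), D ⟨x, hx⟩ = 0 := by
    intro x hx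
    induction hx using IntermediateField.adjoin_induction with
    | mem x hx =>
      obtain ⟨j, rfl⟩ := hx
      exact hD j
    | algebraMap x => exact D.map_algebraMap x
    | add x y hx hy h1 h2 =>
      have h3 : (⟨x + y, add_mem hx hy⟩ : M) = ⟨x, hx⟩ + ⟨y, hy⟩ := rfl
      rw [h3, map_add, h1, h2, add_zero]
    | inv x hx h1 =>
      have h3 : (⟨x⁻¹, inv_mem hx⟩ : M) = (⟨x, hx⟩ : M)⁻¹ := rfl
      rw [h3, Derivation.leibniz_inv, h1, smul_zero]
    | mul x y hx hy h1 h2 =>
      have h3 : (⟨x * y, mul_mem hx hy⟩ : M) = ⟨x, hx⟩ * ⟨y, hy⟩ := rfl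
      rw [h3, Derivation.leibniz, h1, h2, smul_zero, smul_zero, add_zero]
  have hsub : Subsingleton (Ω[M⁄K]) := by
    have h1 := KaehlerDifferential.span_range_derivation K M
    have h2 : Set.range (KaehlerDifferential.D K M) ⊆ {0} := by
      rintro _ ⟨x, rfl⟩
      exact hall x.1 x.2
    have h3 : (⊤ : Submodule M (Ω[M⁄K])) = ⊥ := by
      rw [eq_bot_iff, ← h1, Submodule.span_le]
      intro x hx
      exact h2 hx
    exact (Submodule.subsingleton_iff M).mp (subsingleton_of_bot_eq_top h3.symm)
  have : Algebra.FormallyUnramified K M := ⟨hsub⟩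
  have : Algebra.EssFiniteType K M :=
    IntermediateField.essFiniteType_iff.mpr (IntermediateField.fg_adjoin_of_finite
      (Set.finite_range z))
  have : Algebra.IsSeparable K M := Algebra.FormallyUnramified.isSeparable K M
  have h1 : IsAlgebraic K (z' i) := (Algebra.IsSeparable.isIntegral K (z' i)).isAlgebraic
  exact (isAlgebraic_algebraMap_iff (A := L) (algebraMap M L).injective).mpr h1

end Pool.Agent.H34.BKH
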